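import Pool.Agent.V11167.EqgD

/-! MP_349919_co, Q1 (affirmative answer). -/

namespace Pool.Agent.Results.MP_349919_co.AllLarge

open Pool.Agent.V11167.Eqg

theorem result : ∀ m : ℕ, Squarefree m → m % 4 = 3 →
    ∃ N : ℕ, 3 ≤ N ∧ ∀ n ≥ N, ∃ P : ZMod n → ℂ, (∀ i, P i ∈ latt m) ∧ IsConvexEquilateral n P :=
  fun m _ hm => main m hm

end Pool.Agent.Results.MP_349919_co.AllLarge
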